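import Mathlib
import Pool.Agent.Y587.GMResult

/-!
# Guessing models `M` for which `κ_M` is the successor of a singular cardinal

`Supercompact` is defined in `Pool.Agent.Y587.GMDefs`, and `HH`, `str`, `ElemSub`, `KappaIs`,
`IsGuessing` in `Pool.Agent.Y587.GMSets`.
-/

set_option autoImplicit false

namespace Pool.Agent.Results.MP_f5d68c_lc.SingularSuccessor

open Cardinal Pool.Agent.Y587.GM

universe u

/-- Let `μ` be the supremum of the supercompact cardinals `κ₀ < κ₁ < …`. Then `μ` is singular, and for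
each regular `θ > μ⁺` and each predicate `A` there is an elementary submodel `M` of `(H_θ, ∈, A)`
with `κ_M = μ⁺` which is `μ⁺`-guessing. -/
theorem result (κ : ℕ → Cardinal.{u}) (hκ : ∀ n, Supercompact (κ n)) (hmono : StrictMono κ) :
    (ℵ₀ < (⨆ n, κ n) ∧ ¬ (⨆ n, κ n).IsRegular) ∧
      ∀ θ : Cardinal.{u}, θ.IsRegular → Order.succ (⨆ n, κ n) < θ → ∀ A : Set (Set ZFSet.{u}),
        ∃ M : Set ZFSet.{u}, ElemSub θ A M ∧ KappaIs M (Order.succ (⨆ n, κ n)) ∧
          IsGuessing (Order.succ (⨆ n, κ n)) M := by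
  refine ⟨singular hκ hmono, fun θ hθ hθ' A => ?_⟩
  obtain ⟨M, h1, h2, -, -, h5, h6, -, h8⟩ := exists_model hκ hmono rfl hθ hθ' A
  exact ⟨M, h1, kappaIs_of h2 h5 h6, h8⟩

end Pool.Agent.Results.MP_f5d68c_lc.SingularSuccessor
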